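import Pool.Agent.Helper73.DC.St5

/-! Module P6 of the project DC. -/

set_option autoImplicit false

namespace Pool.Agent.Helper93.DC

open Pool.Agent.Helper73.DC
open Finset
open scoped Classical

theorem mP6 : StP5 → StM2 → StM6 → StP6 := by
  intro h5 h2 h6 α cl rs w p f cb r g l W rr hP hO hl hR hl4 hl41 hC
  have hp0 : 0 < p 0 := (Nat.zero_le _).trans_lt (hl 0)
  have hsem : sem w p 40 cb r (prunP cl rs) (l, g) =
      (sem w p 40 cb r (stepY cl rs))^[p 10] (Function.update l 13 0, g) := by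
    simp [prunP, Pool.Agent.Helper73.DC.sq, sem]
  rw [hsem]
  let F : ℕ → RG (p 6) → RG (p 6) := fun y =>
    opB (p 6) (p 4) (p 7 : ZMod (p 6)) (l 3) (fun t => dg (p 12) (l 5) t) (GG cl rs w p f)
      (dcd (6 * (p 6 - 1)) (fun t => dg (p 12) (l 6) t) (p 9) (l 4 + 1) 0 (l 35) y)
  have hinv : ∀ n, n ≤ p 10 →
      (∀ i, ((sem w p 40 cb r (stepY cl rs))^[n] (Function.update l 13 0, g)).1 i < p 0) ∧
      (∀ i, i < 13 ∨ 34 < i →
        ((sem w p 40 cb r (stepY cl rs))^[n] (Function.update l 13 0, g)).1 i = l i) ∧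
      ((sem w p 40 cb r (stepY cl rs))^[n] (Function.update l 13 0, g)).1 13 = n ∧
      Rp (p 6) (p 4) ((sem w p 40 cb r (stepY cl rs))^[n] (Function.update l 13 0, g)).2
        (runB F n rr) := by
    intro n
    induction n with
    | zero =>
      intro _
      refine ⟨fun i => ?_, fun i hi => ?_, ?_, hR⟩
      · show Function.update l 13 0 i < p 0
        by_cases h : i = 13
        · rw [h, Function.update_self]
          exact hp0
        · rw [Function.update_of_ne h]
          exact hl i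
      · show Function.update l 13 0 i = l i
        have h : i ≠ 13 := by omega
        rw [Function.update_of_ne h]
      · show Function.update l 13 0 13 = 0
        rw [Function.update_self]
    | succ n ih =>
      intro hn
      obtain ⟨i1, i2, i3, i4⟩ := ih (by omega)
      rw [Function.iterate_succ_apply']
      generalize (sem w p 40 cb r (stepY cl rs))^[n] (Function.update l 13 0, g) = s at i1 i2 i3 i4
      obtain ⟨l', g'⟩ := s
      simp only at i1 i2 i3 i4
      obtain ⟨j1, j2, j3, j4⟩ := h5 cl rs w p f cb r g' l' (runB F n rr) hP hO i1 i4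
        (by rw [i2 4 (by omega)]; exact hl41) (by rw [i3]; omega)
      refine ⟨j1, fun i hi => (j2 i hi).trans (i2 i hi), by rw [j3, i3], ?_⟩
      rw [i2 3 (by omega), i2 5 (by omega), i2 6 (by omega), i2 4 (by omega), i2 35 (by omega),
        i3] at j4
      exact j4
  obtain ⟨k1, k2, -, k4⟩ := hinv (p 10) le_rfl
  refine ⟨k1, k2, ?_⟩
  haveI : Fact (p 6).Prime := ⟨hP.hp⟩
  obtain ⟨hom, hom2⟩ := (h6 (p 6)).2 (p 7) hP.ho hP.ho'
  have hrun : runB F (p 10) rr =
      addB (p 4) 0 (fun i => sgn (p 6) (l 35) * (bt (W (l 4 + 1)) i : ZMod (p 6))) rr := by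
    rw [hP.hbD, hP.hb]
    exact h2 (p 6) (p 4) (p 7 : ZMod (p 6)) (l 3) (fun t => dg (p 12) (l 5) t)
      (fun t => dg (p 12) (l 6) t) W (GG cl rs w p f) (l 4 + 1)
      (by have := hP.hpL; omega) hom hom2 hC.1
      (fun t ht1 ht2 => by rw [← hP.hQ]; exact hC.2.1 t ht1 ht2) hC.2.2 (p 9) (l 4 + 1) 0 (l 35) rr
      (by omega) le_rfl (by omega) (by omega)
  rw [hrun] at k4
  exact k4

end Pool.Agent.Helper93.DC
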